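import Mathlib
import Pool.Agent.Q214.RS.Bwd

/-!
MP_9e8ffd: the set `𝒮` of all integer sequences `(n_k)` for which some irrational `z` on the unit
circle (i.e. `z` is not a root of unity) satisfies `z ^ n_k → 1` is NOT a Borel subset of `ℤ^ℕ`.
-/

namespace Pool.Agent.Results.MP_9e8ffd_lc.IrrationalLimitNotBorel

open Pool.Agent.H418R3.Gur Filter Topology Q214.RS

/-- the coded sequence -/
def sq (T : List ℕ → Bool) (n : ℕ) : ℤ :=
  tst T (Denumerable.ofNat (ℕ × ℕ × ℕ) n).1 (Denumerable.ofNat (ℕ × ℕ × ℕ) n).2.1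
    (Denumerable.ofNat (ℕ × ℕ × ℕ) n).2.2

theorem continuous_inT (s : List ℕ) : Continuous fun T : List ℕ → Bool => inT T s := by
  induction s with
  | nil => exact continuous_apply (A := fun _ : List ℕ => Bool) []
  | cons a s ih =>
    have h1 : Continuous fun T : List ℕ → Bool => T (a :: s) :=
      continuous_apply (A := fun _ : List ℕ => Bool) (a :: s)
    have h2 : Continuous fun p : Bool × Bool => (p.1 && p.2) := continuous_of_discreteTopology
    exact h2.comp (h1.prodMk ih)

theorem continuous_sq : Continuous sq := by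
  apply continuous_pi
  intro n
  unfold sq
  generalize Denumerable.ofNat (ℕ × ℕ × ℕ) n = t
  obtain ⟨c, m, j⟩ := t
  match c with
  | 0 => exact continuous_const
  | 1 =>
    have h : Continuous fun v : Bool => (if j ≤ w m ∧ v = false then pw m j else 0 : ℤ) :=
      continuous_of_discreteTopology
    exact h.comp (continuous_inT (nd m.unpair.1))
  | 2 => exact continuous_const
  | 3 => exact continuous_const
  | (n + 4) => exact continuous_const

theorem nn_eq_norm (x : ℝ) : ‖(x : UnitAddCircle)‖ = nn x := UnitAddCircle.norm_eq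

theorem toCircle_pow (n : ℤ) (θ : ℝ) :
    (AddCircle.toCircle (θ : UnitAddCircle)) ^ n = AddCircle.toCircle (((n : ℝ) * θ : ℝ) : UnitAddCircle) := by
  rw [← AddCircle.toCircle_zsmul, ← AddCircle.coe_zsmul, zsmul_eq_mul]

theorem tendsto_iff (θ : ℝ) (n : ℕ → ℤ) :
    Tendsto (fun k => (AddCircle.toCircle (θ : UnitAddCircle)) ^ n k) atTop (𝓝 1) ↔
      Tendsto (fun k => nn ((n k : ℝ) * θ)) atTop (𝓝 0) := by
  have h1 : (fun k => (AddCircle.toCircle (θ : UnitAddCircle)) ^ n k) =
      (AddCircle.homeomorphCircle (T := 1) one_ne_zero) ∘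
        (fun k => (((n k : ℝ) * θ : ℝ) : UnitAddCircle)) := by
    funext k
    rw [toCircle_pow, Function.comp_apply, AddCircle.homeomorphCircle_apply]
  have h2 : (1 : Circle) = (AddCircle.homeomorphCircle (T := 1) one_ne_zero) 0 := by
    rw [AddCircle.homeomorphCircle_apply, AddCircle.toCircle_zero]
  rw [h1, h2, ← (AddCircle.homeomorphCircle (T := 1) one_ne_zero).isInducing.tendsto_nhds_iff,
    tendsto_zero_iff_norm_tendsto_zero]
  simp only [nn_eq_norm]

theorem toCircle_eq_one (θ : ℝ) : AddCircle.toCircle (θ : UnitAddCircle) = 1 ↔ ∃ z : ℤ, (z : ℝ) = θ := by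
  rw [← AddCircle.toCircle_zero (T := 1)]
  rw [(AddCircle.injective_toCircle (T := 1) one_ne_zero).eq_iff, AddCircle.coe_eq_zero_iff]
  simp

/-- The reduction. -/
theorem reduction (T : List ℕ → Bool) :
    T ∈ IF ↔ ∃ z : Circle, (∀ k : ℕ, 0 < k → z ^ k ≠ 1) ∧
      Tendsto (fun k => z ^ sq T k) atTop (𝓝 1) := by
  constructor
  · intro hT
    obtain ⟨θ, hθ, hfin⟩ := exists_irr hT
    refine ⟨AddCircle.toCircle (θ : UnitAddCircle), ?_, ?_⟩
    · intro k hk h
      have h1 := toCircle_pow (k : ℤ) θ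
      rw [zpow_natCast, h] at h1
      obtain ⟨z, hz⟩ := (toCircle_eq_one _).mp h1.symm
      apply hθ
      refine ⟨(z : ℚ) / k, ?_⟩
      have hk' : (k : ℝ) ≠ 0 := by positivity
      push_cast at hz ⊢
      rw [hz]
      field_simp
    · rw [tendsto_iff, Metric.tendsto_atTop']
      intro ε hε
      have h1 := (hfin ε hε).image Encodable.encode
      obtain ⟨N, hN⟩ := h1.bddAbove
      refine ⟨N, fun n hn => ?_⟩
      rw [Real.dist_eq, sub_zero, abs_of_nonneg (nn_nonneg _)]
      by_contra hc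
      push Not at hc
      have h2 : n ∈ Encodable.encode '' {t : ℕ × ℕ × ℕ | ε ≤ nn ((tst T t.1 t.2.1 t.2.2 : ℝ) * θ)} :=
        ⟨Denumerable.ofNat (ℕ × ℕ × ℕ) n, hc, Denumerable.encode_ofNat n⟩
      have := hN h2
      omega
  · rintro ⟨z, hz, hlim⟩
    obtain ⟨t, ht⟩ := (AddCircle.homeomorphCircle (T := 1) one_ne_zero).surjective z
    obtain ⟨θ, rfl⟩ := QuotientAddGroup.mk_surjective t
    have hz' : z = AddCircle.toCircle (θ : UnitAddCircle) := by
      rw [← ht]; exact AddCircle.homeomorphCircle_apply _ _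
    subst hz'
    have hθ : Irrational θ := by
      rintro ⟨q, hq⟩
      apply hz q.den q.den_pos
      have h1 := toCircle_pow (q.den : ℤ) θ
      rw [zpow_natCast] at h1
      rw [h1, toCircle_eq_one]
      refine ⟨q.num, ?_⟩
      have := Rat.mul_den_eq_num q
      have h2 : (q : ℝ) * q.den = q.num := by exact_mod_cast this
      rw [← h2, hq]
      push_cast
      ring
    rw [tendsto_iff, Metric.tendsto_atTop] at hlim
    apply mem_IF_of hθ
    intro ε hε
    obtain ⟨N, hN⟩ := hlim ε hε
    refine ⟨N, fun m hm c q => ?_⟩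
    have h1 := hN (Encodable.encode (c, m, q)) (by
      rw [Encodable.encode_prod_val, Encodable.encode_prod_val]
      have h2 : m ≤ Nat.pair m q := Nat.left_le_pair _ _
      have h3 : Nat.pair m q ≤ Nat.pair c (Nat.pair m q) := Nat.right_le_pair _ _
      show N ≤ Nat.pair c (Nat.pair m q)
      omega)
    rw [Real.dist_eq, sub_zero, abs_of_nonneg (nn_nonneg _)] at h1
    unfold sq at h1
    rw [Denumerable.ofNat_encode] at h1
    exact h1

/-- **MP_9e8ffd, Q1: No.** The set of all integer sequences `(n_k)` for which there is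
`z ∈ 𝕋`, not a root of unity, with `z ^ n_k → 1`, is not Borel in `ℤ^ℕ`. -/
theorem result :
    ¬ @MeasurableSet (ℕ → ℤ) (borel (ℕ → ℤ))
      {n : ℕ → ℤ | ∃ z : Circle, (∀ k : ℕ, 0 < k → z ^ k ≠ 1) ∧
        Tendsto (fun k => z ^ n k) atTop (𝓝 1)} := by
  intro h
  have h1 : @Measurable _ _ (borel (List ℕ → Bool)) (borel (ℕ → ℤ)) sq :=
    continuous_sq.borel_measurable
  have h2 := h1 h
  apply IF_not_borel
  convert h2 using 1
  ext T
  exact reduction T

end Pool.Agent.Results.MP_9e8ffd_lc.IrrationalLimitNotBorel
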